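import Pool.Agent.helper72.ODK.Spec

set_option autoImplicit false

namespace Pool.Agent.helper72.UP

open Finset

lemma ASW_term (N l s L y M : ℝ) (hl : 2000 ≤ l) (hs1 : 1000 ≤ s) (hs : s ^ 2 = N)
    (hL : L ^ 2 = N * l) (hy0 : 0 ≤ y) (hy : y ≤ L / 16 + 2 * s + 2) (hM : N / 4 ≤ M) :
    2 * y ^ 2 / M ≤ l / 16 + 256 := by
  have hNpos : 0 < N := by rw [← hs]; positivity
  have hMpos : 0 < M := by linarith
  rw [div_le_iff₀ hMpos]
  have h1 : y ^ 2 ≤ (L / 16 + (2 * s + 2)) ^ 2 := by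
    apply pow_le_pow_left₀ hy0
    linarith
  have h2 : (L / 16 + (2 * s + 2)) ^ 2 ≤ 2 * (L / 16) ^ 2 + 2 * (2 * s + 2) ^ 2 := by
    nlinarith [sq_nonneg (L / 16 - (2 * s + 2))]
  have h3 : (2 * s + 2) ^ 2 ≤ 16 * N := by
    rw [← hs]
    nlinarith
  have h4 : (L / 16) ^ 2 = N * l / 256 := by
    rw [div_pow, hL]
    norm_num
  have h5 : (l / 16 + 256) * (N / 4) ≤ (l / 16 + 256) * M := by
    apply mul_le_mul_of_nonneg_left hM
    linarith
  nlinarith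

lemma ASW_core (N l s L y y' M M' a : ℝ) (hN : N = Real.exp l) (hl : 2000 ≤ l)
    (hs1 : 1000 ≤ s) (hs : s ^ 2 = N)
    (hL : L ^ 2 = N * l) (hy0 : 0 ≤ y) (hy : y ≤ L / 16 + 2 * s + 2) (hM : N / 4 ≤ M)
    (hy0' : 0 ≤ y') (hy' : y' ≤ L / 16 + 2 * s + 2) (hM' : N / 4 ≤ M')
    (ha : Real.sqrt a ≤ s) (ha2 : N / 2 ≤ a + 2) :
    12 * Real.sqrt a < (a + 2) * Real.exp (-(2 * y ^ 2 / M) - 2 * y' ^ 2 / M') := by
  have h1 := ASW_term N l s L y M hl hs1 hs hL hy0 hy hM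
  have h2 := ASW_term N l s L y' M' hl hs1 hs hL hy0' hy' hM'
  have h3 : Real.exp (-(l / 8 + 512)) ≤ Real.exp (-(2 * y ^ 2 / M) - 2 * y' ^ 2 / M') := by
    apply Real.exp_le_exp.2
    linarith
  have hsexp : s = Real.exp (l / 2) := by
    have h4 : s ^ 2 = Real.exp (l / 2) ^ 2 := by
      rw [hs, hN, ← Real.exp_nat_mul]
      congr 1
      push_cast
      ring
    exact (pow_left_inj₀ (by linarith) (Real.exp_pos _).le (by norm_num)).1 h4
  have hNpos : 0 < N := by rw [hN]; exact Real.exp_pos _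
  have h5 : 24 * Real.exp (l / 2) < Real.exp (l - (l / 8 + 512)) := by
    have h6 : (24 : ℝ) < Real.exp 24 := by
      have := Real.add_one_le_exp (24 : ℝ)
      linarith
    calc 24 * Real.exp (l / 2) < Real.exp 24 * Real.exp (l / 2) :=
          mul_lt_mul_of_pos_right h6 (Real.exp_pos _)
      _ = Real.exp (24 + l / 2) := (Real.exp_add _ _).symm
      _ ≤ Real.exp (l - (l / 8 + 512)) := by
          apply Real.exp_le_exp.2
          linarith
  have h7 : Real.exp (l - (l / 8 + 512)) = N * Real.exp (-(l / 8 + 512)) := by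
    rw [hN, ← Real.exp_add]
    congr 1
  calc 12 * Real.sqrt a ≤ 12 * s := by linarith
    _ = 24 * Real.exp (l / 2) / 2 := by rw [hsexp]; ring
    _ < N * Real.exp (-(l / 8 + 512)) / 2 := by rw [← h7]; linarith
    _ = N / 2 * Real.exp (-(l / 8 + 512)) := by ring
    _ ≤ (a + 2) * Real.exp (-(l / 8 + 512)) :=
        mul_le_mul_of_nonneg_right ha2 (Real.exp_pos _).le
    _ ≤ (a + 2) * Real.exp (-(2 * y ^ 2 / M) - 2 * y' ^ 2 / M') :=
        mul_le_mul_of_nonneg_left h3 (by linarith)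

theorem ASW (h : FIW_stmt) : ASW_stmt := by
  refine ⟨⌈Real.exp 2000⌉₊, ?_⟩
  intro n hn K hK1 hK2
  have hnr : Real.exp 2000 ≤ (n : ℝ) := (Nat.le_ceil _).trans (by exact_mod_cast hn)
  have hn0 : (0 : ℝ) < (n : ℝ) := (Real.exp_pos _).trans_le hnr
  obtain ⟨l, hl⟩ : ∃ l, l = Real.log (n : ℝ) := ⟨_, rfl⟩
  obtain ⟨L, hLd⟩ : ∃ L, L = Real.sqrt ((n : ℝ) * Real.log n) := ⟨_, rfl⟩
  obtain ⟨s, hsd⟩ : ∃ s, s = Real.sqrt (n : ℝ) := ⟨_, rfl⟩
  have hNl : (n : ℝ) = Real.exp l := by rw [hl, Real.exp_log hn0]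
  have hl2 : 2000 ≤ l := by
    rw [hl]
    exact (Real.le_log_iff_exp_le hn0).2 hnr
  have hNb : 1000 * l ≤ (n : ℝ) := by
    have h1 := Real.quadratic_le_exp_of_nonneg (x := l) (by linarith)
    rw [hNl]
    nlinarith
  have hN2 : (2000000 : ℝ) ≤ (n : ℝ) := by linarith
  have hs0 : 0 ≤ s := by rw [hsd]; exact Real.sqrt_nonneg _
  have hs : s ^ 2 = (n : ℝ) := by rw [hsd]; exact Real.sq_sqrt hn0.le
  have hs1 : 1000 ≤ s := by
    by_contra hc
    push Not at hc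
    nlinarith
  have hsN : 1000 * s ≤ (n : ℝ) := by nlinarith
  have hL0 : 0 ≤ L := by rw [hLd]; exact Real.sqrt_nonneg _
  have hL : L ^ 2 = (n : ℝ) * l := by
    rw [hLd, hl]
    exact Real.sq_sqrt (mul_nonneg hn0.le (by rw [← hl]; linarith))
  have hLN : L ≤ (n : ℝ) / 16 := by
    by_contra hc
    push Not at hc
    have h1 : ((n : ℝ) / 16) ^ 2 < L ^ 2 := by
      apply pow_lt_pow_left₀ hc (by positivity) (by norm_num)
    rw [hL] at h1
    have h2 : (n : ℝ) * (1000 * l) ≤ (n : ℝ) * n := mul_le_mul_of_nonneg_left hNb hn0.le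
    nlinarith
  rw [← hLd] at hK2
  push_cast at hK2
  have hn20 : 20 ≤ n := by
    have : (20 : ℝ) ≤ (n : ℝ) := by linarith
    exact_mod_cast this
  have hq0 : Nat.sqrt (n / 2) * Nat.sqrt (n / 2) ≤ n := (Nat.sqrt_le _).trans (by omega)
  obtain ⟨q, hq⟩ : ∃ q, q = Nat.sqrt (n / 2) := ⟨_, rfl⟩
  obtain ⟨m, hm⟩ : ∃ m, m = n / 2 / 2 := ⟨_, rfl⟩
  obtain ⟨m', hm'⟩ : ∃ m', m' = (n - 1) / 2 / 2 := ⟨_, rfl⟩
  obtain ⟨a, ha⟩ : ∃ a, a = (n - 1) / 2 := ⟨_, rfl⟩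
  obtain ⟨y, hy⟩ : ∃ y, y = K + 1 - m := ⟨_, rfl⟩
  obtain ⟨y', hy'⟩ : ∃ y', y' = K - 1 + 2 * (q + 1) - m' := ⟨_, rfl⟩
  have hm1 : (n : ℝ) ≤ 4 * m + 3 := by
    have : n ≤ 4 * m + 3 := by omega
    exact_mod_cast this
  have hm1' : (n : ℝ) ≤ 4 * m' + 4 := by
    have : n ≤ 4 * m' + 4 := by omega
    exact_mod_cast this
  have ha1 : (n : ℝ) ≤ 2 * a + 2 := by
    have : n ≤ 2 * a + 2 := by omega
    exact_mod_cast this
  have ha2 : (a : ℝ) ≤ (n : ℝ) := by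
    have : a ≤ n := by omega
    exact_mod_cast this
  have hqs : (q : ℝ) ≤ s := by
    rw [← hq] at hq0
    have h1 : (q : ℝ) * q ≤ (n : ℝ) := by exact_mod_cast hq0
    by_contra hc
    push Not at hc
    nlinarith
  have hy1 : (y : ℝ) ≤ L / 16 + 5 / 4 := by
    rcases Nat.le_total (K + 1) m with hc | hc
    · have : y = 0 := by omega
      rw [this]
      push_cast
      linarith
    · have : y + m = K + 1 := by omega
      have h1 : (y : ℝ) + m = K + 1 := by exact_mod_cast this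
      linarith
  have hy1' : (y' : ℝ) ≤ L / 16 + 2 * s + 3 / 2 := by
    rcases Nat.le_total (K - 1 + 2 * (q + 1)) m' with hc | hc
    · have : y' = 0 := by omega
      rw [this]
      push_cast
      linarith
    · have : y' + m' + 1 = K + 2 * (q + 1) := by omega
      have h1 : (y' : ℝ) + m' + 1 = K + 2 * (q + 1) := by exact_mod_cast this
      linarith
  have hF := h n K hn20 hK1
  rw [← hq, ← hm, ← hm', ← ha, ← hy, ← hy'] at hF
  apply hF
  · have h1 : ((2 * K : ℕ) : ℝ) ≤ ((n - 1 : ℕ) : ℝ) := by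
      rw [Nat.cast_sub (by omega)]
      push_cast
      linarith
    have h2 : 2 * K ≤ n - 1 := by exact_mod_cast h1
    omega
  · have h1 : 4 * (y : ℝ) ≤ m + 1 := by linarith
    exact_mod_cast h1
  · have h1 : 4 * (y' : ℝ) ≤ m' + 1 := by linarith
    exact_mod_cast h1
  · apply ASW_core (n : ℝ) l s L y y' (m + 1) (m' + 1) a hNl hl2 hs1 hs hL
      (Nat.cast_nonneg _) (by linarith) (by linarith) (Nat.cast_nonneg _) (by linarith)
      (by linarith) _ (by linarith)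
    rw [hsd]
    exact Real.sqrt_le_sqrt ha2

end Pool.Agent.helper72.UP
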